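import Pool.Agent.H32.N6.TargetsB

/-! Row BDG of `n6_modules`: integral diagonalisation of a unimodular form at an odd place. -/

set_option autoImplicit false

open Polynomial NumberField IsDedekindDomain Matrix Pool.Agent.H32.QC Pool.Agent.H34.N6
  Pool.Agent.H32.N6

namespace Pool.Agent.H79.N6B

/-- the form can be diagonalised, with units -/
def Dg {F : Type} [NormedField F] {n : ℕ} (A : Matrix (Fin n) (Fin n) F) : Prop :=
  ∃ (C : Matrix (Fin n) (Fin n) F) (u : Fin n → F), (∀ i, ‖u i‖ = 1) ∧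
    Cᵀ * A * C = Matrix.diagonal u

theorem dg_of {F : Type} [NormedField F] {n : ℕ} (A T : Matrix (Fin n) (Fin n) F)
    (h : Dg (Tᵀ * A * T)) : Dg A := by
  obtain ⟨C, u, hu, hC⟩ := h
  refine ⟨T * C, u, hu, ?_⟩
  rw [← hC, Matrix.transpose_mul]
  simp only [Matrix.mul_assoc]

section schur

variable {F : Type} [NormedField F] {n : ℕ} (A : Matrix (Fin (n + 1)) (Fin (n + 1)) F)

/-- the Schur complement -/
noncomputable def sc : Matrix (Fin n) (Fin n) F :=
  Matrix.of fun i j => A i.succ j.succ - A i.succ 0 * A 0 j.succ / A 0 0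

/-- the change of basis -/
noncomputable def cm (C : Matrix (Fin n) (Fin n) F) : Matrix (Fin (n + 1)) (Fin (n + 1)) F :=
  Matrix.of (Fin.cons (Fin.cons 1 fun m => -(∑ k, A 0 k.succ * C k m) / A 0 0)
    fun i => Fin.cons 0 (C i))

theorem cm00 (C : Matrix (Fin n) (Fin n) F) : cm A C 0 0 = 1 := rfl
theorem cm0s (C : Matrix (Fin n) (Fin n) F) (m : Fin n) :
    cm A C 0 m.succ = -(∑ k, A 0 k.succ * C k m) / A 0 0 := rfl
theorem cms0 (C : Matrix (Fin n) (Fin n) F) (i : Fin n) : cm A C i.succ 0 = 0 := rfl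
theorem cmss (C : Matrix (Fin n) (Fin n) F) (i m : Fin n) : cm A C i.succ m.succ = C i m := rfl

theorem mul_cm0 (C : Matrix (Fin n) (Fin n) F) (i : Fin (n + 1)) : (A * cm A C) i 0 = A i 0 := by
  rw [Matrix.mul_apply, Fin.sum_univ_succ, cm00, mul_one]
  simp only [cms0, mul_zero, Finset.sum_const_zero, add_zero]

theorem mul_cm0s (h : A 0 0 ≠ 0) (C : Matrix (Fin n) (Fin n) F) (m : Fin n) :
    (A * cm A C) 0 m.succ = 0 := by
  rw [Matrix.mul_apply, Fin.sum_univ_succ, cm0s]
  simp only [cmss]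
  rw [mul_div_cancel₀ _ h, neg_add_cancel]

theorem mul_cmss (C : Matrix (Fin n) (Fin n) F) (l m : Fin n) :
    (A * cm A C) l.succ m.succ = (sc A * C) l m := by
  rw [Matrix.mul_apply, Fin.sum_univ_succ, cm0s, Matrix.mul_apply]
  simp only [cmss, sc, Matrix.of_apply, sub_mul, Finset.sum_sub_distrib]
  have h1 : ∑ k, A l.succ 0 * A 0 k.succ / A 0 0 * C k m =
      A l.succ 0 * (∑ k, A 0 k.succ * C k m) / A 0 0 := by
    rw [Finset.mul_sum, Finset.sum_div]
    exact Finset.sum_congr rfl fun k _ => by ring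
  rw [h1]
  ring

theorem dg_schur (hA : A.IsSymm) (h : A 0 0 ≠ 0) (h1 : ‖A 0 0‖ = 1) (hd : Dg (sc A)) : Dg A := by
  obtain ⟨C, u, hu, hC⟩ := hd
  refine ⟨cm A C, Fin.cons (A 0 0) u, fun i => ?_, ?_⟩
  · refine Fin.cases ?_ (fun j => ?_) i
    · exact h1
    · exact hu j
  · have hp : ∀ p q, ((cm A C)ᵀ * A * cm A C) p q = ∑ i, cm A C i p * (A * cm A C) i q := by
      intro p q
      rw [Matrix.mul_assoc, Matrix.mul_apply]
      rfl
    ext p q
    rw [hp, Fin.sum_univ_succ]
    refine Fin.cases ?_ (fun l => ?_) p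
    · simp only [cm00, cms0, one_mul, zero_mul, Finset.sum_const_zero, add_zero]
      refine Fin.cases ?_ (fun m => ?_) q
      · rw [mul_cm0, Matrix.diagonal_apply_eq]
        rfl
      · rw [mul_cm0s A h, Matrix.diagonal_apply_ne _ (Fin.succ_ne_zero m).symm]
    · refine Fin.cases ?_ (fun m => ?_) q
      · simp only [mul_cm0, cm0s, cmss]
        rw [Matrix.diagonal_apply_ne _ (Fin.succ_ne_zero l), div_mul_cancel₀ _ h,
          neg_add_eq_zero]
        refine Finset.sum_congr rfl fun k _ => ?_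
        rw [hA.apply 0 k.succ]
        ring
      · simp only [mul_cmss, mul_cm0s A h, cmss, mul_zero, zero_add]
        have h3 := congrFun (congrFun hC l) m
        rw [Matrix.mul_assoc, Matrix.mul_apply] at h3
        have h4 : ∑ k, C k l * (sc A * C) k m = Matrix.diagonal u l m := h3
        rw [h4, Matrix.diagonal_apply, Matrix.diagonal_apply]
        by_cases h5 : l = m
        · rw [if_pos h5, if_pos (congrArg Fin.succ h5)]
          rfl
        · rw [if_neg h5, if_neg fun h6 => h5 (Fin.succ_injective _ h6)]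

theorem det_sc (h : A 0 0 ≠ 0) : A.det = A 0 0 * (sc A).det := by
  have h1 : (cm A 1).det = 1 := by
    rw [Matrix.det_succ_column_zero, Fin.sum_univ_succ]
    simp only [cms0, mul_zero, zero_mul, Finset.sum_const_zero, add_zero]
    have h2 : (cm A 1).submatrix (Fin.succAbove 0) Fin.succ = 1 := by
      ext i j
      rw [Matrix.submatrix_apply, Fin.succAbove_zero, cmss]
    rw [h2, Matrix.det_one, cm00]
    simp
  have h2 : (A * cm A 1).det = A 0 0 * (sc A).det := by
    rw [Matrix.det_succ_row_zero, Fin.sum_univ_succ]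
    simp only [mul_cm0s A h, mul_zero, zero_mul, Finset.sum_const_zero, add_zero, mul_cm0]
    have h3 : (A * cm A 1).submatrix Fin.succ (Fin.succAbove 0) = sc A := by
      ext i j
      rw [Matrix.submatrix_apply, Fin.succAbove_zero, mul_cmss, Matrix.mul_one]
    rw [h3]
    simp
  rw [← h2, Matrix.det_mul, h1, mul_one]

end schur

section step

variable {F : Type} [NormedField F] [IsUltrametricDist F]

theorem mul_int {n : ℕ} (A B : Matrix (Fin n) (Fin n) F) (hA : ∀ i j, ‖A i j‖ ≤ 1)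
    (hB : ∀ i j, ‖B i j‖ ≤ 1) (i j : Fin n) : ‖(A * B) i j‖ ≤ 1 := by
  rw [Matrix.mul_apply]
  refine IsUltrametricDist.norm_sum_le_of_forall_le_of_nonneg zero_le_one fun k _ => ?_
  rw [norm_mul]
  exact mul_le_one₀ (hA i k) (norm_nonneg _) (hB k j)

theorem norm_sub_max (x y : F) : ‖x - y‖ ≤ max ‖x‖ ‖y‖ := by
  rw [sub_eq_add_neg, ← norm_neg y]
  exact IsUltrametricDist.norm_add_le_max x (-y)

theorem sub_le_one {x y : F} (hx : ‖x‖ ≤ 1) (hy : ‖y‖ ≤ 1) : ‖x - y‖ ≤ 1 :=
  (norm_sub_max x y).trans (max_le hx hy)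

theorem add_le_one {x y : F} (hx : ‖x‖ ≤ 1) (hy : ‖y‖ ≤ 1) : ‖x + y‖ ≤ 1 :=
  (IsUltrametricDist.norm_add_le_max x y).trans (max_le hx hy)

/-- the first column contains a unit -/
theorem exists_unit {n : ℕ} (A : Matrix (Fin (n + 1)) (Fin (n + 1)) F)
    (hA : ∀ i j, ‖A i j‖ ≤ 1) (hd : ‖A.det‖ = 1) : ∃ j, ‖A j 0‖ = 1 := by
  rw [Matrix.det_apply'] at hd
  obtain ⟨σ, -, hσ⟩ := IsUltrametricDist.exists_norm_finsetSum_le_of_nonempty
    (Finset.univ_nonempty (α := Equiv.Perm (Fin (n + 1))))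
    (fun σ => ((Equiv.Perm.sign σ : ℤ) : F) * ∏ i, A (σ i) i)
  rw [hd, norm_mul] at hσ
  have h1 : ‖((Equiv.Perm.sign σ : ℤ) : F)‖ = 1 := by
    rcases Int.units_eq_one_or (Equiv.Perm.sign σ) with h | h <;> rw [h] <;> simp
  rw [h1, one_mul, norm_prod, Fin.prod_univ_succ] at hσ
  have h2 : ∏ i : Fin n, ‖A (σ i.succ) i.succ‖ ≤ 1 :=
    Finset.prod_le_one (fun _ _ => norm_nonneg _) fun i _ => hA _ _
  refine ⟨σ 0, le_antisymm (hA _ _) ?_⟩
  refine hσ.trans ?_
  exact mul_le_of_le_one_right (norm_nonneg _) h2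

end step

theorem dg_all {F : Type} [NormedField F] [IsUltrametricDist F] (h2 : ‖(2 : F)‖ = 1) :
    ∀ (n : ℕ) (A : Matrix (Fin n) (Fin n) F), A.IsSymm → (∀ i j, ‖A i j‖ ≤ 1) → ‖A.det‖ = 1 →
    Dg A
  | 0, A, _, _, _ => ⟨1, fun _ => 1, fun i => i.elim0, by ext i; exact i.elim0⟩
  | n + 1, A, hA, hint, hdet => by
    -- the case where the first entry is a unit
    have key : ∀ A : Matrix (Fin (n + 1)) (Fin (n + 1)) F, A.IsSymm → (∀ i j, ‖A i j‖ ≤ 1) →
        ‖A.det‖ = 1 → ‖A 0 0‖ = 1 → Dg A := by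
      intro A hA hint hdet h00
      have h0 : A 0 0 ≠ 0 := by
        intro h
        rw [h, norm_zero] at h00
        exact zero_ne_one h00
      refine dg_schur A hA h0 h00 (dg_all h2 n (sc A) ?_ ?_ ?_)
      · refine Matrix.IsSymm.ext fun i j => ?_
        show A j.succ i.succ - A j.succ 0 * A 0 i.succ / A 0 0 =
          A i.succ j.succ - A i.succ 0 * A 0 j.succ / A 0 0
        rw [hA.apply i.succ j.succ, hA.apply 0 j.succ, ← hA.apply 0 i.succ]
        ring
      · intro i j
        refine sub_le_one (hint _ _) ?_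
        rw [norm_div, h00, div_one, norm_mul]
        exact mul_le_one₀ (hint _ _) (norm_nonneg _) (hint _ _)
      · rw [det_sc A h0, norm_mul, h00, one_mul] at hdet
        exact hdet
    obtain ⟨j, hj⟩ := exists_unit A hint hdet
    by_cases hj0 : j = 0
    · rw [hj0] at hj
      exact key A hA hint hdet hj
    · -- replace the first basis vector
      have hA0 : A 0 j = A j 0 := hA.apply j 0
      have hA0' : ‖A 0 j‖ = 1 := by rw [hA0, hj]
      obtain ⟨c, hc1, hc⟩ : ∃ c : F, c * c = 1 ∧ ‖A 0 0 + 2 * c * A 0 j + A j j‖ = 1 := by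
        have hle : ∀ c : F, ‖c‖ = 1 → ‖A 0 0 + 2 * c * A 0 j + A j j‖ ≤ 1 := by
          intro c hc
          refine add_le_one (add_le_one (hint _ _) ?_) (hint _ _)
          rw [norm_mul, norm_mul, h2, hc, hA0']
          norm_num
        by_contra hcon
        push Not at hcon
        have h3 : ‖A 0 0 + 2 * 1 * A 0 j + A j j‖ < 1 :=
          lt_of_le_of_ne (hle 1 norm_one) (hcon 1 (mul_one 1))
        have h4 : ‖A 0 0 + 2 * (-1) * A 0 j + A j j‖ < 1 :=
          lt_of_le_of_ne (hle (-1) (by rw [norm_neg, norm_one])) (hcon (-1) (by norm_num))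
        have h5 : (A 0 0 + 2 * 1 * A 0 j + A j j) - (A 0 0 + 2 * (-1) * A 0 j + A j j) =
            2 * 2 * A 0 j := by ring
        have h6 : ‖(2 : F) * 2 * A 0 j‖ < 1 := by
          rw [← h5]
          exact (norm_sub_max _ _).trans_lt (max_lt h3 h4)
        rw [norm_mul, norm_mul, h2, hA0'] at h6
        norm_num at h6
      have hcn : ‖c‖ = 1 := by
        have h3 : ‖c‖ * ‖c‖ = 1 := by rw [← norm_mul, hc1, norm_one]
        nlinarith [norm_nonneg c]
      have hT : (Matrix.transvection j 0 c)ᵀ = Matrix.transvection 0 j c := by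
        unfold Matrix.transvection
        rw [Matrix.transpose_add, Matrix.transpose_one, Matrix.transpose_single]
      have hTint : ∀ i k, ‖Matrix.transvection j 0 c i k‖ ≤ 1 := by
        intro i k
        show ‖(1 : Matrix (Fin (n + 1)) (Fin (n + 1)) F) i k + Matrix.single j 0 c i k‖ ≤ 1
        refine add_le_one ?_ ?_
        · rw [Matrix.one_apply]
          split_ifs <;> simp
        · rw [Matrix.single_apply]
          split_ifs
          · exact hcn.le
          · simp
      have hTint' : ∀ i k, ‖(Matrix.transvection j 0 c)ᵀ i k‖ ≤ 1 := fun i k => hTint k i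
      refine dg_of A (Matrix.transvection j 0 c) (key _ ?_ ?_ ?_ ?_)
      · unfold Matrix.IsSymm
        rw [Matrix.transpose_mul, Matrix.transpose_mul, Matrix.transpose_transpose, hA.eq,
          Matrix.mul_assoc]
      · exact mul_int _ _ (mul_int _ _ hTint' hint) hTint
      · rw [Matrix.det_mul, Matrix.det_mul, Matrix.det_transpose,
          Matrix.det_transvection_of_ne j 0 hj0, one_mul, mul_one]
        exact hdet
      · rw [hT, Matrix.mul_assoc, Matrix.transvection_mul_apply_same,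
          Matrix.mul_transvection_apply_same, Matrix.mul_transvection_apply_same]
        have h3 : A 0 0 + c * A 0 j + c * (A j 0 + c * A j j) =
            A 0 0 + 2 * c * A 0 j + A j j := by
          rw [← hA0]
          linear_combination (A j j) * hc1
        rw [h3]
        exact hc

theorem pf_BDG : T_BDG := by
  intro F _ _ h2 n A hA hint hdet
  obtain ⟨C, u, hu, hC⟩ := dg_all h2 n A hA hint hdet
  refine ⟨C, u, fun h => ?_, hu, hC⟩
  have h1 := congrArg Matrix.det hC
  rw [Matrix.det_mul, h, mul_zero, Matrix.det_diagonal] at h1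
  have h3 : ‖∏ i, u i‖ = 1 := by
    rw [norm_prod]
    exact Finset.prod_eq_one fun i _ => hu i
  rw [← h1, norm_zero] at h3
  exact zero_ne_one h3

end Pool.Agent.H79.N6B
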